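import Pool.Agent.Helper865.Wid.VFinal

/-!
# A lower bound for the volume of a convex body of width 1 in `ℝ³`

Definitions (`E`, `widthDir`, `minWidth`, `IsBody`, `V3`) are in `Pool.Agent.Helper865.Wid.Defs`
and `Pool.Agent.Helper865.Wid.VDefs`.
-/

set_option autoImplicit false

open MeasureTheory

namespace Pool.Agent.Results.MP_1e9c11_gt.VolumeBound

open Pool.Agent.Helper865.Wid

/-- `V₃ ≥ 0.218`: every convex body of width `1` in `ℝ³` has volume at least `0.218`. -/
theorem result : ENNReal.ofReal (218 / 1000) ≤ V3 ∧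
    ∀ K : Set (E 3), IsBody K → minWidth K = 1 → 218 / 1000 ≤ (volume K).toReal :=
  final

end Pool.Agent.Results.MP_1e9c11_gt.VolumeBound
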